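import Pool.Agent.R901.WR.B2

/-!
# MP_b50549_al: whether the probability of a word is positive depends on the generating set
-/

open Filter Topology
open scoped commutatorElement

namespace Pool.Agent.Results.MP_b50549_al.ZeroOrPositive

open Pool.Agent.R901.WR

/-- the permutation group of three letters -/
abbrev L3 := Equiv.Perm (Fin 3)

/-- the ambient group -/
abbrev W := Wr L3 ℤ

/-- `S₃ ≀ ℤ`, generated by the lamps at the origin and the translation -/
def H : Subgroup W := Subgroup.closure ({Wr.tr 1} ∪ Set.range Wr.lamp)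

lemma tr_mem : (Wr.tr 1 : W) ∈ H := Subgroup.subset_closure (Or.inl rfl)
lemma lamp_mem (a : L3) : (Wr.lamp a : W) ∈ H := Subgroup.subset_closure (Or.inr ⟨a, rfl⟩)
lemma trm_mem : (Wr.tr (-1) : W) ∈ H := by
  rw [Wr.tr_neg]
  exact inv_mem tr_mem

lemma Dn_mem (i : (Dn L3).ι) : (Dn L3).st i ∈ H := by
  rcases i with _ | _ | a
  · exact tr_mem
  · exact trm_mem
  · exact lamp_mem a

lemma tr_tau_mem (b : Bool × Bool) : (Wr.tr (tau b) : W) ∈ H := by
  rcases b with ⟨_ | _, _ | _⟩
  · exact trm_mem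
  · have : (Wr.tr (tau (false, true)) : W) = 1 := by simp [tau, Wr.tr_zero]
    rw [this]; exact one_mem _
  · have : (Wr.tr (tau (true, false)) : W) = 1 := by simp [tau, Wr.tr_zero]
    rw [this]; exact one_mem _
  · exact tr_mem

lemma Dc_mem (i : (Dc L3).ι) : (Dc L3).st i ∈ H :=
  mul_mem (mul_mem (lamp_mem _) (tr_tau_mem _)) (lamp_mem _)

lemma Dn_gen : H ≤ Subgroup.closure {g | ∃ i, 0 < (Dn L3).p i ∧ (Dn L3).st i = g} := by
  unfold H
  rw [Subgroup.closure_le]
  rintro g (rfl | ⟨a, rfl⟩)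
  · exact Subgroup.subset_closure ⟨none, by simp [Dn], rfl⟩
  · exact Subgroup.subset_closure ⟨some (some a), by
      have : (0 : ℝ) < 1 / (4 * Fintype.card L3) := by positivity
      exact this, rfl⟩

lemma Dc_p (i : (Dc L3).ι) : 0 < (Dc L3).p i := by
  have : (0 : ℝ) < 1 / (Fintype.card (L3 × (Bool × Bool) × L3)) := by positivity
  exact this

lemma Dc_gen : H ≤ Subgroup.closure {g | ∃ i, 0 < (Dc L3).p i ∧ (Dc L3).st i = g} := by
  unfold H
  rw [Subgroup.closure_le]
  rintro g (rfl | ⟨a, rfl⟩)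
  · refine Subgroup.subset_closure ⟨((1 : L3), (true, true), (1 : L3)), Dc_p _, ?_⟩
    change Wr.sws 1 (tau (true, true)) 1 = _
    simp [Wr.sws, Wr.lamp_one, tau]
  · refine Subgroup.subset_closure ⟨(a, (true, false), (1 : L3)), Dc_p _, ?_⟩
    change Wr.sws a (tau (true, false)) 1 = _
    simp [Wr.sws, Wr.lamp_one, tau, Wr.tr_zero]

/-- **MP_b50549_al, Q1: yes.** There are a group `G`, a nontrivial word `w` and two step
distributions `μ`, `ν` on `G` with `Pr_μ(w = 1) = 0` (the probabilities even tend to `0`) and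
`Pr_ν(w = 1) > 0` (the probabilities are at least `1/256` for all `n ≥ 1`). -/
theorem result : ∃ (G : Type) (_ : Group G) (w : FreeGroup (Fin 4)) (μ ν : G → ℝ),
    w ≠ 1 ∧ IsStep μ ∧ IsStep ν ∧
    Tendsto (fun n => stepProb μ w n) atTop (𝓝 0) ∧
    limsup (fun n => stepProb μ w n) atTop = 0 ∧
    (∀ n, 1 ≤ n → 1 / 256 ≤ stepProb ν w n ∧ stepProb ν w n ≤ 1) ∧
    0 < limsup (fun n => stepProb ν w n) atTop := by
  have hκ : ((Finset.univ.filter fun p : L3 × L3 => ⁅p.1, p.2⁆ = 1).card : ℝ) ≤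
      (1 / 2) * Fintype.card (L3 × L3) := by
    have h1 : (Finset.univ.filter fun p : L3 × L3 => ⁅p.1, p.2⁆ = 1).card = 18 := by
      simp only [commutatorElement_def]
      decide
    have h2 : Fintype.card (L3 × L3) = 36 := by
      simp [Fintype.card_perm, Nat.factorial]
    rw [h1, h2]
    norm_num
  set Dμ := (Dc L3).toSub H Dc_mem
  set Dν := (Dn L3).toSub H Dn_mem
  have hμ : Tendsto (fun n => stepProb Dμ.push w4 n) atTop (𝓝 0) := by
    simp only [Dist.stepProb_push, Dμ, Dist.toSub_lawProb]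
    exact centred_tendsto (1 / 2) (by norm_num) (by norm_num) hκ
  have hν : ∀ n, 1 ≤ n → 1 / 256 ≤ stepProb Dν.push w4 n ∧ stepProb Dν.push w4 n ≤ 1 := by
    intro n hn
    obtain ⟨m, rfl⟩ : ∃ m, n = m + 1 := ⟨n - 1, by omega⟩
    simp only [Dist.stepProb_push, Dν, Dist.toSub_lawProb]
    exact ⟨drift m, Dist.lawProb_le_one _ _ _⟩
  refine ⟨H, inferInstance, w4, Dμ.push, Dν.push, ?_, ?_, ?_, hμ, hμ.limsup_eq, hν, ?_⟩
  · -- the word is not trivial
    intro h
    let a : L3 := Equiv.swap 0 1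
    let b : L3 := Equiv.swap 1 2
    have h1 := lift_w4 (Wr.tr 1 : W) (Wr.tr 1 : W) (Wr.lamp a) (Wr.lamp b)
    rw [h, map_one] at h1
    have h2 := h1.symm
    rw [Wr.comm_eq_one_iff (Wr.comm_s _ _) (Wr.comm_s _ _)] at h2
    have h3 := h2 0
    rw [Wr.comm_f, Wr.comm_f] at h3
    simp only [Wr.lamp_f, Wr.lamp_s, Wr.tr_s, Wr.tr_f, Wr.inv_f, Wr.inv_s] at h3
    norm_num at h3
    revert h3
    simp only [commutatorElement_def]
    decide
  · refine Dist.isStep_push _ (Dist.closure_toSub _ _ _ Dc_gen)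
      ((1 : L3), (true, false), (1 : L3)) (Dc_p ((1 : L3), (true, false), (1 : L3))) ?_
    apply Subtype.ext
    change Wr.sws 1 (tau (true, false)) 1 = _
    simp [Wr.sws, Wr.lamp_one, tau, Wr.tr_zero]
  · refine Dist.isStep_push _ (Dist.closure_toSub _ _ _ Dn_gen)
      (some (some (1 : L3))) ?_ ?_
    · have : (0 : ℝ) < 1 / (4 * Fintype.card L3) := by positivity
      exact this
    · apply Subtype.ext
      change (Wr.lamp (1 : L3) : W) = _
      rw [Wr.lamp_one]
      rfl
  · refine lt_of_lt_of_le (show (0 : ℝ) < 1 / 256 by norm_num) ?_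
    refine le_limsup_of_frequently_le ?_ ?_
    · exact (eventually_atTop.2 ⟨1, fun n hn => (hν n hn).1⟩).frequently
    · exact isBoundedUnder_of_eventually_le (a := 1)
        (eventually_atTop.2 ⟨1, fun n hn => (hν n hn).2⟩)

end Pool.Agent.Results.MP_b50549_al.ZeroOrPositive
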